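import Pool.Agent.W883.LL.Pole

set_option autoImplicit false

/-! Finite sums of poles and their limits. -/

namespace Pool.Agent.W883.LL

open MeasureTheory Filter Topology Complex

noncomputable section

section Fin

variable {κ : Type} [Fintype κ] (p e : κ → ℝ)

/-- finite sum of poles -/
def F (z : ℂ) : ℂ := ∑ k, (p k : ℂ) / ((e k : ℂ) - z)

/-- its density at height `η` -/
def g (η E : ℝ) : ℝ := ∑ k, p k * P (e k) η E

theorem im_inv (e η E : ℝ) (p : ℝ) :
    ((p : ℂ) / ((e : ℂ) - ((E : ℂ) + η * I))).im = p * P e η E := by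
  rw [div_eq_mul_inv, im_ofReal_mul, inv_im, Complex.normSq_apply]
  unfold P
  simp
  left
  congr 1
  ring

theorem g_eq (η E : ℝ) : (F p e ((E : ℂ) + η * I)).im = g p e η E := by
  unfold F g
  rw [im_sum]
  exact Finset.sum_congr rfl fun k _ => im_inv _ _ _ _

variable {p e}

theorem F_norm (hp : ∀ k, 0 ≤ p k) (h1 : ∑ k, p k = 1) (z : ℂ) (hz : 0 < z.im) :
    ‖F p e z‖ ≤ 1 / z.im := by
  have : ∀ k, ‖(p k : ℂ) / ((e k : ℂ) - z)‖ ≤ p k * (1 / z.im) := by
    intro k
    rw [norm_div, Complex.norm_real, Real.norm_eq_abs, abs_of_nonneg (hp k), mul_one_div]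
    exact div_le_div_of_nonneg_left (hp k) hz (norm_sub_ge z hz (e k))
  calc ‖F p e z‖ ≤ ∑ k, ‖(p k : ℂ) / ((e k : ℂ) - z)‖ := norm_sum_le _ _
    _ ≤ ∑ k, p k * (1 / z.im) := Finset.sum_le_sum fun k _ => this k
    _ = 1 / z.im := by rw [← Finset.sum_mul, h1, one_mul]

theorem F_im (hp : ∀ k, 0 ≤ p k) (z : ℂ) (hz : 0 < z.im) : 0 ≤ (F p e z).im := by
  have h : z = ((z.re : ℝ) : ℂ) + (z.im : ℝ) * I := (re_add_im z).symm
  rw [h, g_eq]
  exact Finset.sum_nonneg fun k _ => mul_nonneg (hp k) (P_nonneg _ _ _ hz)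

theorem F_lip (hp : ∀ k, 0 ≤ p k) (h1 : ∑ k, p k = 1) (z z' : ℂ) (hz : 0 < z.im) (hz' : 0 < z'.im) :
    ‖F p e z - F p e z'‖ ≤ ‖z - z'‖ / (z.im * z'.im) := by
  have h2 : ∀ k, ‖(p k : ℂ) / ((e k : ℂ) - z) - (p k : ℂ) / ((e k : ℂ) - z')‖ ≤
      p k * (‖z - z'‖ / (z.im * z'.im)) := by
    intro k
    have n1 := sub_ne z hz (e k)
    have n2 := sub_ne z' hz' (e k)
    have h3 : (p k : ℂ) / ((e k : ℂ) - z) - (p k : ℂ) / ((e k : ℂ) - z') =
        (p k : ℂ) * ((z - z') / (((e k : ℂ) - z) * ((e k : ℂ) - z'))) := by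
      field_simp
      ring
    rw [h3, norm_mul, Complex.norm_real, Real.norm_eq_abs, abs_of_nonneg (hp k), norm_div, norm_mul]
    apply mul_le_mul_of_nonneg_left _ (hp k)
    apply div_le_div_of_nonneg_left (norm_nonneg _) (by positivity)
    exact mul_le_mul (norm_sub_ge z hz _) (norm_sub_ge z' hz' _) hz'.le (norm_nonneg _)
  unfold F
  rw [← Finset.sum_sub_distrib]
  calc ‖∑ k, ((p k : ℂ) / ((e k : ℂ) - z) - (p k : ℂ) / ((e k : ℂ) - z'))‖
      ≤ ∑ k, ‖(p k : ℂ) / ((e k : ℂ) - z) - (p k : ℂ) / ((e k : ℂ) - z')‖ := norm_sum_le _ _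
    _ ≤ ∑ k, p k * (‖z - z'‖ / (z.im * z'.im)) := Finset.sum_le_sum fun k _ => h2 k
    _ = _ := by rw [← Finset.sum_mul, h1, one_mul]

theorem g_nonneg (hp : ∀ k, 0 ≤ p k) (η : ℝ) (hη : 0 < η) (E : ℝ) : 0 ≤ g p e η E :=
  Finset.sum_nonneg fun k _ => mul_nonneg (hp k) (P_nonneg _ _ _ hη)

theorem g_le (hp : ∀ k, 0 ≤ p k) (h1 : ∑ k, p k = 1) (η : ℝ) (hη : 0 < η) (E : ℝ) :
    g p e η E ≤ 1 / η := by
  calc g p e η E ≤ ∑ k, p k * (1 / η) :=
        Finset.sum_le_sum fun k _ => mul_le_mul_of_nonneg_left (P_le _ _ _ hη) (hp k)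
    _ = 1 / η := by rw [← Finset.sum_mul, h1, one_mul]

theorem g_int (η : ℝ) (hη : 0 < η) : Integrable (fun E => g p e η E) :=
  integrable_finsetSum _ fun _ _ => (P_integrable _ _ hη).const_mul _

theorem g_integral (h1 : ∑ k, p k = 1) (η : ℝ) (hη : 0 < η) : ∫ E, g p e η E = Real.pi := by
  unfold g
  rw [integral_finsetSum _ fun k _ => (P_integrable _ _ hη).const_mul _]
  simp_rw [integral_const_mul, P_integral _ _ hη]
  rw [← Finset.sum_mul, h1, one_mul]

theorem g_tail (hp : ∀ k, 0 ≤ p k) (h1 : ∑ k, p k = 1) (A : ℝ) (hA : ∑ k, p k * |e k| ≤ A) (η : ℝ)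
    (hη : 0 < η) (hη1 : η ≤ 1) (B : ℝ) (hB : 1 ≤ B) :
    ∫ E in {E : ℝ | B ≤ |E|}, g p e η E ≤ 2 * Real.pi * (1 + A) / B := by
  unfold g
  rw [integral_finsetSum _ fun k _ => ((P_integrable _ _ hη).const_mul _).integrableOn]
  simp_rw [integral_const_mul]
  have hpi := Real.pi_pos
  have hB0 : 0 < B := by linarith
  calc ∑ k, p k * ∫ E in {E : ℝ | B ≤ |E|}, P (e k) η E
      ≤ ∑ k, p k * (2 * Real.pi * (1 + |e k|) / B) :=
        Finset.sum_le_sum fun k _ => mul_le_mul_of_nonneg_left (P_tail _ _ hη hη1 B hB) (hp k)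
    _ = ∑ k, (2 * Real.pi / B) * (p k + p k * |e k|) :=
        Finset.sum_congr rfl fun k _ => by ring
    _ = (2 * Real.pi / B) * (1 + ∑ k, p k * |e k|) := by
        rw [← Finset.mul_sum, Finset.sum_add_distrib, h1]
    _ ≤ (2 * Real.pi / B) * (1 + A) := by
        apply mul_le_mul_of_nonneg_left _ (by positivity)
        linarith
    _ = _ := by ring

theorem g_cauchy (η : ℝ) (hη : 0 < η) (z : ℂ) (hz : 0 < z.im) :
    ∫ E : ℝ, (g p e η E : ℂ) / ((E : ℂ) - z) = Real.pi * F p e (z + η * I) := by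
  have h1 : ∀ E : ℝ, (g p e η E : ℂ) / ((E : ℂ) - z) =
      ∑ k, (p k : ℂ) * ((P (e k) η E : ℂ) / ((E : ℂ) - z)) := by
    intro E
    unfold g
    push_cast
    rw [Finset.sum_div]
    exact Finset.sum_congr rfl fun k _ => by ring
  simp_rw [h1]
  rw [integral_finsetSum _ fun k _ => (P_cauchy _ _ hη z hz).1.const_mul _]
  unfold F
  rw [Finset.mul_sum]
  refine Finset.sum_congr rfl fun k _ => ?_
  rw [integral_const_mul, (P_cauchy _ _ hη z hz).2]
  ring

end Fin

theorem bound_cauchy (z : ℂ) (hz : 0 < z.im) (E : ℝ) (x : ℂ) :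
    ‖x / ((E : ℂ) - z)‖ ≤ (1 / z.im) * ‖x‖ := by
  rw [norm_div]
  calc ‖x‖ / ‖(E : ℂ) - z‖ ≤ ‖x‖ / z.im :=
        div_le_div_of_nonneg_left (norm_nonneg _) hz (norm_sub_ge z hz _)
    _ = _ := by ring

theorem limit_rep {ι : Type} (l : Filter ι) [l.NeBot] [l.IsCountablyGenerated]
    (κ : ι → Type) [∀ i, Fintype (κ i)] (p e : ∀ i, κ i → ℝ) (hp : ∀ i k, 0 ≤ p i k)
    (h1 : ∀ i, ∑ k, p i k = 1) (A : ℝ) (hA : ∀ i, ∑ k, p i k * |e i k| ≤ A) (G : ℂ → ℂ)
    (hG : ∀ z : ℂ, 0 < z.im → Tendsto (fun i => F (p i) (e i) z) l (𝓝 (G z))) :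
    (∀ z : ℂ, 0 < z.im → 0 ≤ (G z).im ∧ ‖G z‖ ≤ 1 / z.im) ∧
    (∀ z z' : ℂ, 0 < z.im → 0 < z'.im → ‖G z - G z'‖ ≤ ‖z - z'‖ / (z.im * z'.im)) ∧
    ∀ η : ℝ, 0 < η → η ≤ 1 →
      Integrable (fun E : ℝ => (G ((E : ℂ) + η * Complex.I)).im) ∧
      ∫ E : ℝ, (G ((E : ℂ) + η * Complex.I)).im = Real.pi ∧
      (∀ z : ℂ, 0 < z.im → G (z + η * Complex.I) = (1 / Real.pi : ℝ) *
        ∫ E : ℝ, ((G ((E : ℂ) + η * Complex.I)).im : ℂ) / ((E : ℂ) - z)) ∧
      ∀ B : ℝ, 1 ≤ B → ∫ E in {E : ℝ | B ≤ |E|}, (G ((E : ℂ) + η * Complex.I)).im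
        ≤ 2 * Real.pi * (1 + A) / B := by
  have hlip : ∀ z z' : ℂ, 0 < z.im → 0 < z'.im → ‖G z - G z'‖ ≤ ‖z - z'‖ / (z.im * z'.im) := by
    intro z z' hz hz'
    exact le_of_tendsto ((hG z hz).sub (hG z' hz')).norm
      (Eventually.of_forall fun i => F_lip (hp i) (h1 i) z z' hz hz')
  refine ⟨fun z hz => ⟨?_, ?_⟩, hlip, ?_⟩
  · exact ge_of_tendsto ((continuous_im.tendsto _).comp (hG z hz))
      (Eventually.of_forall fun i => F_im (hp i) z hz)
  · exact le_of_tendsto (hG z hz).norm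
      (Eventually.of_forall fun i => F_norm (hp i) (h1 i) z hz)
  intro η hη hη1
  have hup : ∀ E : ℝ, 0 < ((E : ℂ) + η * I).im := by
    intro E
    simp [hη]
  set gl : ℝ → ℝ := fun E => (G ((E : ℂ) + η * I)).im with hgl
  have hglim : ∀ E, Tendsto (fun i => g (p i) (e i) η E) l (𝓝 (gl E)) := by
    intro E
    have := (continuous_im.tendsto _).comp (hG _ (hup E))
    refine this.congr fun i => ?_
    exact g_eq _ _ _ _
  have hglc : Continuous gl := by
    have hc : Continuous fun E : ℝ => G ((E : ℂ) + η * I) := by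
      rw [Metric.continuous_iff]
      intro E ε hε
      refine ⟨ε * (η * η), by positivity, fun E' hE' => ?_⟩
      rw [dist_eq_norm]
      refine (hlip _ _ (hup E') (hup E)).trans_lt ?_
      have : ‖(E' : ℂ) + η * I - (E + η * I)‖ = |E' - E| := by
        rw [← Real.norm_eq_abs, ← Complex.norm_real]
        congr 1
        push_cast
        ring
      rw [this]
      have h3 : ∀ x : ℝ, ((x : ℂ) + η * I).im = η := by
        intro x
        simp
      rw [h3, h3, div_lt_iff₀ (by positivity)]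
      rwa [Real.dist_eq] at hE'
    exact continuous_im.comp hc
  have hgl0 : ∀ E, 0 ≤ gl E := fun E =>
    ge_of_tendsto (hglim E) (Eventually.of_forall fun i => g_nonneg (hp i) η hη E)
  have hgl1 : ∀ E, gl E ≤ 1 / η := fun E =>
    le_of_tendsto (hglim E) (Eventually.of_forall fun i => g_le (hp i) (h1 i) η hη E)
  have hA0 : 0 ≤ A := by
    obtain ⟨i⟩ : Nonempty ι := l.nonempty_of_neBot
    exact le_trans (Finset.sum_nonneg fun k _ => mul_nonneg (hp i k) (abs_nonneg _)) (hA i)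
  set C : ℝ := 2 * Real.pi * (1 + A) with hC
  have hC0 : 0 ≤ C := by
    have := Real.pi_pos
    positivity
  -- the integral over the middle
  have hmeas : ∀ B : ℝ, MeasurableSet {E : ℝ | B ≤ |E|} := fun B =>
    (isClosed_le continuous_const continuous_abs).measurableSet
  have hcompl : ∀ B : ℝ, {E : ℝ | B ≤ |E|}ᶜ = Set.Ioo (-B) B := by
    intro B
    ext E
    simp only [Set.mem_compl_iff, Set.mem_ofPred_eq, not_le, Set.mem_Ioo]
    exact abs_lt
  have hmid : ∀ B : ℝ, Tendsto (fun i => ∫ E in Set.Ioo (-B) B, g (p i) (e i) η E) l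
      (𝓝 (∫ E in Set.Ioo (-B) B, gl E)) := by
    intro B
    apply tendsto_integral_filter_of_dominated_convergence (fun _ => 1 / η)
    · exact Eventually.of_forall fun i => (g_int η hη).aestronglyMeasurable.restrict
    · refine Eventually.of_forall fun i => ?_
      filter_upwards with E
      rw [Real.norm_eq_abs, abs_of_nonneg (g_nonneg (hp i) η hη E)]
      exact g_le (hp i) (h1 i) η hη E
    · exact integrableOn_const (by simp) (by simp)
    · filter_upwards with E
      exact hglim E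
  have hmidb : ∀ i, ∀ B : ℝ, 1 ≤ B → Real.pi - C / B ≤ ∫ E in Set.Ioo (-B) B, g (p i) (e i) η E ∧
      ∫ E in Set.Ioo (-B) B, g (p i) (e i) η E ≤ Real.pi := by
    intro i B hB
    have h2 := integral_add_compl (hmeas B) (g_int (p := p i) (e := e i) η hη)
    rw [g_integral (h1 i) η hη, hcompl] at h2
    have h3 := g_tail (hp i) (h1 i) A (hA i) η hη hη1 B hB
    have h4 : 0 ≤ ∫ E in {E : ℝ | B ≤ |E|}, g (p i) (e i) η E :=
      integral_nonneg fun E => g_nonneg (hp i) η hη E
    constructor <;> linarith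
  have hmidl : ∀ B : ℝ, 1 ≤ B → Real.pi - C / B ≤ ∫ E in Set.Ioo (-B) B, gl E ∧
      ∫ E in Set.Ioo (-B) B, gl E ≤ Real.pi := fun B hB =>
    ⟨ge_of_tendsto (hmid B) (Eventually.of_forall fun i => (hmidb i B hB).1),
      le_of_tendsto (hmid B) (Eventually.of_forall fun i => (hmidb i B hB).2)⟩
  have hcover : AECover (volume : Measure ℝ) atTop (fun B : ℝ => Set.Ioo (-B) B) :=
    aecover_Ioo tendsto_neg_atTop_atBot tendsto_id
  have hint : Integrable gl := by
    apply hcover.integrable_of_integral_norm_bounded Real.pi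
    · intro B
      exact (hglc.integrableOn_Icc (a := -B) (b := B)).mono_set Set.Ioo_subset_Icc_self
    · filter_upwards [eventually_ge_atTop 1] with B hB
      have : (fun E => ‖gl E‖) = gl := by
        ext E
        rw [Real.norm_eq_abs, abs_of_nonneg (hgl0 E)]
      rw [this]
      exact (hmidl B hB).2
  have hlimB := hcover.integral_tendsto_of_countably_generated hint
  have htot : ∫ E, gl E = Real.pi := by
    apply le_antisymm
    · exact le_of_tendsto hlimB (by
        filter_upwards [eventually_ge_atTop 1] with B hB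
        exact (hmidl B hB).2)
    · have h5 : Tendsto (fun B : ℝ => Real.pi - C / B) atTop (𝓝 (Real.pi - 0)) :=
        (tendsto_const_nhds.div_atTop tendsto_id).const_sub _
      rw [sub_zero] at h5
      exact le_of_tendsto_of_tendsto h5 hlimB (by
        filter_upwards [eventually_ge_atTop 1] with B hB
        exact (hmidl B hB).1)
  have htail : ∀ B : ℝ, 1 ≤ B → ∫ E in {E : ℝ | B ≤ |E|}, gl E ≤ C / B := by
    intro B hB
    have h2 := integral_add_compl (hmeas B) hint
    rw [htot, hcompl] at h2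
    have := (hmidl B hB).1
    linarith
  refine ⟨hint, htot, ?_, htail⟩
  intro z hz
  -- convergence in mean
  have hL1 : Tendsto (fun i => ∫ E, |g (p i) (e i) η E - gl E|) l (𝓝 0) := by
    rw [Metric.tendsto_nhds]
    intro ε hε
    obtain ⟨B, hB1, hB2⟩ : ∃ B : ℝ, 1 ≤ B ∧ 2 * C / B < ε / 2 := by
      refine ⟨max 1 (4 * C / ε + 1), le_max_left _ _, ?_⟩
      have h6 : 0 < max 1 (4 * C / ε + 1) := lt_of_lt_of_le one_pos (le_max_left _ _)
      rw [div_lt_iff₀ h6]
      have h7 : 4 * C / ε + 1 ≤ max 1 (4 * C / ε + 1) := le_max_right _ _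
      have h8 : ε / 2 * (4 * C / ε + 1) ≤ ε / 2 * max 1 (4 * C / ε + 1) :=
        mul_le_mul_of_nonneg_left h7 (by positivity)
      have h9 : ε / 2 * (4 * C / ε + 1) = 2 * C + ε / 2 := by
        field_simp
        ring
      linarith
    have hmid2 : Tendsto (fun i => ∫ E in Set.Ioo (-B) B, |g (p i) (e i) η E - gl E|) l (𝓝 0) := by
      have : (0 : ℝ) = ∫ E in Set.Ioo (-B) B, (0 : ℝ) := by simp
      rw [this]
      apply tendsto_integral_filter_of_dominated_convergence (fun _ => 1 / η)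
      · exact Eventually.of_forall fun i =>
          ((g_int η hη).sub hint).abs.aestronglyMeasurable.restrict
      · refine Eventually.of_forall fun i => ?_
        filter_upwards with E
        rw [Real.norm_eq_abs, abs_abs, abs_le]
        have a1 := g_nonneg (e := e i) (hp i) η hη E
        have a2 := g_le (e := e i) (hp i) (h1 i) η hη E
        have a3 := hgl0 E
        have a4 := hgl1 E
        constructor <;> linarith
      · exact integrableOn_const (by simp) (by simp)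
      · filter_upwards with E
        have := ((hglim E).sub_const (gl E)).abs
        simpa using this
    filter_upwards [(Metric.tendsto_nhds.1 hmid2) (ε / 2) (by positivity)] with i hi
    rw [Real.dist_eq, sub_zero] at hi ⊢
    have b0 : 0 ≤ ∫ E, |g (p i) (e i) η E - gl E| := integral_nonneg fun E => abs_nonneg _
    rw [abs_of_nonneg b0]
    have b1 := integral_add_compl (hmeas B) ((g_int (p := p i) (e := e i) η hη).sub hint).abs
    rw [hcompl] at b1
    have b2 : ∫ E in {E : ℝ | B ≤ |E|}, |g (p i) (e i) η E - gl E| ≤ 2 * C / B := by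
      calc ∫ E in {E : ℝ | B ≤ |E|}, |g (p i) (e i) η E - gl E|
          ≤ ∫ E in {E : ℝ | B ≤ |E|}, (g (p i) (e i) η E + gl E) := by
            apply integral_mono ((g_int η hη).sub hint).abs.integrableOn
              ((g_int η hη).add hint).integrableOn
            intro E
            simp only [Pi.sub_apply, Pi.add_apply]
            rw [abs_le]
            have a1 := g_nonneg (e := e i) (hp i) η hη E
            have a3 := hgl0 E
            constructor <;> linarith
        _ = (∫ E in {E : ℝ | B ≤ |E|}, g (p i) (e i) η E) + ∫ E in {E : ℝ | B ≤ |E|}, gl E :=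
            integral_add (g_int η hη).integrableOn hint.integrableOn
        _ ≤ C / B + C / B := add_le_add (g_tail (hp i) (h1 i) A (hA i) η hη hη1 B hB1) (htail B hB1)
        _ = 2 * C / B := by ring
    have b3 : ∫ E in Set.Ioo (-B) B, |g (p i) (e i) η E - gl E| < ε / 2 := (le_abs_self _).trans_lt hi
    have b4 : ∫ E, |g (p i) (e i) η E - gl E| =
        (∫ E in {E : ℝ | B ≤ |E|}, |g (p i) (e i) η E - gl E|) +
          ∫ E in Set.Ioo (-B) B, |g (p i) (e i) η E - gl E| := b1.symm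
    rw [b4]
    linarith
  have hci : ∀ (f : ℝ → ℝ), Integrable f → Integrable fun E : ℝ => (f E : ℂ) / ((E : ℂ) - z) := by
    intro f hf
    have hf2 : Integrable fun E : ℝ => (1 / z.im) * ‖(f E : ℂ)‖ := (hf.ofReal (𝕜 := ℂ)).norm.const_mul _
    refine hf2.mono' ?_ ?_
    · have : (fun E : ℝ => (f E : ℂ) / ((E : ℂ) - z)) = fun E : ℝ => (f E : ℂ) * ((E : ℂ) - z)⁻¹ := by
        ext E
        rw [div_eq_mul_inv]
      rw [this]
      exact (hf.ofReal (𝕜 := ℂ)).aestronglyMeasurable.mul (inv_cont z hz).aestronglyMeasurable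
    · filter_upwards with E
      exact bound_cauchy z hz E _
  have hlim1 : Tendsto (fun i => ∫ E : ℝ, (g (p i) (e i) η E : ℂ) / ((E : ℂ) - z)) l
      (𝓝 (∫ E : ℝ, (gl E : ℂ) / ((E : ℂ) - z))) := by
    rw [tendsto_iff_norm_sub_tendsto_zero]
    have hs : Tendsto (fun i => (1 / z.im) * ∫ E, |g (p i) (e i) η E - gl E|) l (𝓝 0) := by
      simpa using hL1.const_mul (1 / z.im)
    refine squeeze_zero (fun i => norm_nonneg _) (fun i => ?_) hs
    rw [← integral_sub (hci _ (g_int η hη)) (hci _ hint), ← integral_const_mul]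
    refine (norm_integral_le_integral_norm _).trans ?_
    apply integral_mono_of_nonneg (Eventually.of_forall fun E => norm_nonneg _)
      (((g_int η hη).sub hint).abs.const_mul _)
    filter_upwards with E
    rw [← sub_div, ← ofReal_sub]
    refine (bound_cauchy z hz E _).trans_eq ?_
    rw [Complex.norm_real, Real.norm_eq_abs]
    rfl
  have hlim2 : Tendsto (fun i => ∫ E : ℝ, (g (p i) (e i) η E : ℂ) / ((E : ℂ) - z)) l
      (𝓝 (Real.pi * G (z + η * I))) := by
    have h3 : ∀ i, ∫ E : ℝ, (g (p i) (e i) η E : ℂ) / ((E : ℂ) - z) =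
        Real.pi * F (p i) (e i) (z + η * I) := fun i => g_cauchy η hη z hz
    simp_rw [h3]
    apply (hG _ _).const_mul
    simp
    linarith
  have h4 := tendsto_nhds_unique hlim1 hlim2
  rw [h4]
  have hpi : (Real.pi : ℂ) ≠ 0 := by exact_mod_cast Real.pi_pos.ne'
  push_cast
  field_simp

end

end Pool.Agent.W883.LL
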