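import Pool.Agent.W792.LL.Stm
import Pool.Agent.W883.LL.Lim

set_option autoImplicit false

/-! The representation of the Green function. -/

namespace Pool.Agent.W883.LL

open MeasureTheory Filter Topology Complex Pool.Agent.W792.LL

noncomputable section

theorem finite_dim {E : Type} [NormedAddCommGroup E] [InnerProductSpace ℂ E] [FiniteDimensional ℂ E]
    (T : E →ₗ[ℂ] E) (hT : T.IsSymmetric) (δ : E) (hδ : ‖δ‖ = 1) :
    ∃ (n : ℕ) (p e : Fin n → ℝ), (∀ k, 0 ≤ p k) ∧ ∑ k, p k = 1 ∧ ∑ k, p k * |e k| ≤ ‖T δ‖ ∧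
      ∀ z : ℂ, 0 < z.im → ∀ u r : E, T u - z • u = δ - r →
        ‖inner ℂ δ u - F p e z‖ ≤ ‖r‖ / z.im := by
  set b := hT.eigenvectorBasis rfl with hb
  set e : Fin (Module.finrank ℂ E) → ℝ := hT.eigenvalues rfl with he
  have hbT : ∀ k, T (b k) = (e k : ℂ) • b k := fun k => hT.apply_eigenvectorBasis rfl k
  have hk : ∀ k (x : E), inner ℂ (b k) (T x) = (e k : ℂ) * inner ℂ (b k) x := by
    intro k x
    rw [← hT (b k) x, hbT, inner_smul_left, conj_ofReal]
  refine ⟨_, fun k => ‖inner ℂ (b k) δ‖ ^ 2, e, fun k => by positivity, ?_, ?_, ?_⟩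
  · rw [b.sum_sq_norm_inner_right, hδ, one_pow]
  · have h1 : ∀ k, ‖inner ℂ (b k) δ‖ ^ 2 * |e k| = ‖inner ℂ (b k) δ‖ * ‖inner ℂ (b k) (T δ)‖ := by
      intro k
      rw [hk, norm_mul, Complex.norm_real, Real.norm_eq_abs]
      ring
    simp_rw [h1]
    refine (Real.sum_mul_le_sqrt_mul_sqrt _ _ _).trans ?_
    rw [b.sum_sq_norm_inner_right, b.sum_sq_norm_inner_right, hδ, one_pow, Real.sqrt_one, one_mul,
      Real.sqrt_sq (norm_nonneg _)]
  · intro z hz u r hu
    have h2 : ∀ k, inner ℂ (b k) u * ((e k : ℂ) - z) = inner ℂ (b k) δ - inner ℂ (b k) r := by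
      intro k
      have := congrArg (fun x => inner ℂ (b k) x) hu
      simp only [inner_sub_right, inner_smul_right] at this
      rw [hk] at this
      rw [← this]
      ring
    have h3 : inner ℂ δ u - F (fun k => ‖inner ℂ (b k) δ‖ ^ 2) e z =
        -∑ k, inner ℂ δ (b k) * inner ℂ (b k) r / ((e k : ℂ) - z) := by
      rw [← b.sum_inner_mul_inner δ u]
      unfold F
      rw [← Finset.sum_sub_distrib, ← Finset.sum_neg_distrib]
      refine Finset.sum_congr rfl fun k _ => ?_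
      have hne := sub_ne z hz (e k)
      have h4 : inner ℂ (b k) u = (inner ℂ (b k) δ - inner ℂ (b k) r) / ((e k : ℂ) - z) := by
        rw [eq_div_iff hne]
        exact h2 k
      have h5 : ((‖inner ℂ (b k) δ‖ ^ 2 : ℝ) : ℂ) = inner ℂ δ (b k) * inner ℂ (b k) δ := by
        rw [← inner_conj_symm δ (b k), RCLike.conj_mul]
        push_cast
        rfl
      rw [h4, h5]
      field_simp
      ring
    rw [h3, norm_neg]
    calc ‖∑ k, inner ℂ δ (b k) * inner ℂ (b k) r / ((e k : ℂ) - z)‖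
        ≤ ∑ k, ‖inner ℂ δ (b k) * inner ℂ (b k) r / ((e k : ℂ) - z)‖ := norm_sum_le _ _
      _ ≤ ∑ k, ‖inner ℂ (b k) δ‖ * ‖inner ℂ (b k) r‖ * (1 / z.im) := by
          refine Finset.sum_le_sum fun k _ => ?_
          rw [norm_div, norm_mul, mul_one_div, norm_inner_symm δ (b k)]
          exact div_le_div_of_nonneg_left (by positivity) hz (norm_sub_ge z hz (e k))
      _ = (∑ k, ‖inner ℂ (b k) δ‖ * ‖inner ℂ (b k) r‖) * (1 / z.im) := by rw [← Finset.sum_mul]
      _ ≤ ‖r‖ * (1 / z.im) := by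
          apply mul_le_mul_of_nonneg_right _ (by positivity)
          refine (Real.sum_mul_le_sqrt_mul_sqrt _ _ _).trans ?_
          rw [b.sum_sq_norm_inner_right, b.sum_sq_norm_inner_right, hδ, one_pow, Real.sqrt_one,
            one_mul, Real.sqrt_sq (norm_nonneg _)]
      _ = ‖r‖ / z.im := by ring

variable {d : ℕ}

/-- the symbol as a complex function -/
def cK (K : C(UnitAddTorus (Fin d), ℝ)) : C(UnitAddTorus (Fin d), ℂ) where
  toFun k := (K k : ℂ)
  continuous_toFun := by fun_prop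

theorem cK_norm (K : C(UnitAddTorus (Fin d), ℝ)) : ‖cK K‖ ≤ ‖K‖ := by
  rw [ContinuousMap.norm_le _ (norm_nonneg _)]
  intro x
  change ‖(K x : ℂ)‖ ≤ _
  rw [Complex.norm_real]
  exact K.norm_coe_le_norm x

theorem hopK_eq (K : C(UnitAddTorus (Fin d), ℝ)) (x : Fin d → ℤ) :
    hopK K x = UnitAddTorus.mFourierCoeff (cK K) x := rfl

theorem hopK_conj (K : C(UnitAddTorus (Fin d), ℝ)) (x : Fin d → ℤ) :
    (starRingEnd ℂ) (hopK K x) = hopK K (-x) := by
  unfold hopK UnitAddTorus.mFourierCoeff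
  rw [← integral_conj]
  congr 1
  ext t
  simp only [smul_eq_mul, map_mul, conj_ofReal, UnitAddTorus.mFourier_neg, Complex.conj_conj, neg_neg]

/-- the finite volume matrix -/
def mat (K : C(UnitAddTorus (Fin d), ℝ)) (lam : ℝ) (v : (Fin d → ℤ) → ℝ) (L : Finset (Fin d → ℤ)) :
    Matrix L L ℂ :=
  fun x y => hopK K ((x : Fin d → ℤ) - y) + if x = y then ((lam * v x : ℝ) : ℂ) else 0

theorem mat_herm (K : C(UnitAddTorus (Fin d), ℝ)) (lam : ℝ) (v : (Fin d → ℤ) → ℝ)
    (L : Finset (Fin d → ℤ)) : (mat K lam v L).IsHermitian := by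
  apply Matrix.IsHermitian.ext
  intro x y
  unfold mat
  rw [star_add]
  congr 1
  · change (starRingEnd ℂ) _ = _
    rw [hopK_conj]
    congr 1
    abel
  · by_cases h : x = y
    · subst h
      simp
    · rw [if_neg h, if_neg (fun h' => h h'.symm), star_zero]

theorem memlp_of (w : (Fin d → ℤ) → ℂ) (hw : Summable fun y => ‖w y‖ ^ 2) :
    Memℓp (E := fun _ : Fin d → ℤ => ℂ) w 2 := by
  apply memℓp_gen
  simpa using hw

theorem summable_cut (w : (Fin d → ℤ) → ℂ) (hw : Summable fun y => ‖w y‖ ^ 2)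
    (L : Finset (Fin d → ℤ)) : Summable fun y => ‖(if y ∈ L then 0 else w y : ℂ)‖ ^ 2 := by
  refine hw.of_nonneg_of_le (fun y => by positivity) (fun y => ?_)
  split_ifs
  · simp
  · exact le_rfl

theorem norm_sq_l2 (u : l2 (Fin d → ℤ)) : ‖u‖ ^ 2 = ∑' y, ‖u y‖ ^ 2 := by
  have := lp.norm_rpow_eq_tsum (p := 2) (by simp) u
  simpa using this

theorem sum_sq_l2 (u : l2 (Fin d → ℤ)) (L : Finset (Fin d → ℤ)) : ∑ y ∈ L, ‖u y‖ ^ 2 ≤ ‖u‖ ^ 2 := by
  have := lp.sum_rpow_le_norm_rpow (p := 2) (by simp) u L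
  simpa using this

theorem lin_apply {ι : Type} [Fintype ι] [DecidableEq ι] (A : Matrix ι ι ℂ) (u : EuclideanSpace ℂ ι)
    (x : ι) : (Matrix.toEuclideanLin A u) x = ∑ y, A x y * u y := rfl

theorem norm_le_of_sq {ι : Type} [Fintype ι] (u : EuclideanSpace ℂ ι) (c : ℝ) (hc : 0 ≤ c)
    (h : ∑ x, ‖u x‖ ^ 2 ≤ c ^ 2) : ‖u‖ ≤ c := by
  rw [EuclideanSpace.norm_eq]
  exact Real.sqrt_le_iff.2 ⟨hc, h⟩

theorem finite_volume (hO : S_OPR) (K : C(UnitAddTorus (Fin d), ℝ)) (lam : ℝ)
    (v : (Fin d → ℤ) → ℝ) (L : Finset (Fin d → ℤ)) (h0 : (0 : Fin d → ℤ) ∈ L) :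
    ∃ (n : ℕ) (p e : Fin n → ℝ), (∀ k, 0 ≤ p k) ∧ ∑ k, p k = 1 ∧
      ∑ k, p k * |e k| ≤ ‖K‖ + |lam * v 0| ∧
      ∀ z : ℂ, 0 < z.im → ∀ w, Sol (hopK K) lam v z 0 w →
        ‖w 0 - F p e z‖ ≤ ‖K‖ * √(∑' y, ‖(if y ∈ L then 0 else w y : ℂ)‖ ^ 2) / z.im := by
  classical
  have hT := Matrix.isSymmetric_toEuclideanLin_iff.2 (mat_herm K lam v L)
  set o : L := ⟨0, h0⟩ with ho
  set δ : EuclideanSpace ℂ L := EuclideanSpace.single o 1 with hδ
  have hδ1 : ‖δ‖ = 1 := by
    rw [hδ, PiLp.norm_single, norm_one]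
  obtain ⟨n, p, e, hp, h1, h2, h3⟩ := finite_dim _ hT δ hδ1
  have hKn : ‖cK K‖ ≤ ‖K‖ := cK_norm K
  refine ⟨n, p, e, hp, h1, h2.trans ?_, ?_⟩
  · -- the norm of the image of the point mass
    have h4 : Matrix.toEuclideanLin (mat K lam v L) δ =
        WithLp.toLp 2 (fun x : L => hopK K (x : Fin d → ℤ)) +
          EuclideanSpace.single o ((lam * v 0 : ℝ) : ℂ) := by
      ext x
      rw [lin_apply, Finset.sum_eq_single o]
      · rw [hδ]
        simp only [PiLp.single_apply, if_true, mul_one, PiLp.add_apply]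
        unfold mat
        rw [ho]
        simp only [sub_zero]
        congr 1
        by_cases hx : x = ⟨0, h0⟩
        · rw [if_pos hx, if_pos hx, hx]
        · rw [if_neg hx, if_neg hx]
      · intro b _ hb
        rw [hδ, PiLp.single_apply, if_neg hb, mul_zero]
      · intro h
        exact absurd (Finset.mem_univ _) h
    rw [h4]
    refine (norm_add_le _ _).trans (add_le_add ?_ ?_)
    · refine (norm_le_of_sq _ ‖cK K‖ (norm_nonneg _) ?_).trans hKn
      obtain ⟨-, -, -, -, -, -, -, hs, ht⟩ := hO d (cK K) (cK K)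
      refine le_trans ?_ ht
      have h5 : ∑ x : L, ‖(WithLp.toLp 2 (fun x : L => hopK K (x : Fin d → ℤ)) : EuclideanSpace ℂ L) x‖ ^ 2 =
          ∑ x ∈ L, ‖UnitAddTorus.mFourierCoeff (cK K) x‖ ^ 2 :=
        Finset.sum_coe_sort L (fun x => ‖UnitAddTorus.mFourierCoeff (cK K) x‖ ^ 2)
      rw [h5]
      exact hs.sum_le_tsum _ (fun _ _ => by positivity)
    · rw [PiLp.norm_single, Complex.norm_real, Real.norm_eq_abs]
  · intro z hz w hw
    obtain ⟨hw1, hw2⟩ := hw
    set W : l2 (Fin d → ℤ) := ⟨w, memlp_of w hw1⟩ with hW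
    set W' : l2 (Fin d → ℤ) := ⟨fun y => if y ∈ L then 0 else w y, memlp_of _ (summable_cut w hw1 L)⟩ with hW'
    set u : EuclideanSpace ℂ L := WithLp.toLp 2 (fun x : L => w x) with hu
    set r : EuclideanSpace ℂ L := WithLp.toLp 2 (fun x : L => opr (cK K) W' x) with hr
    obtain ⟨hO1, hO2, -⟩ := hO d (cK K) (cK K)
    have hsplit : ∀ x : Fin d → ℤ, ∑' y, hopK K (x - y) * w y =
        ∑ y ∈ L, hopK K (x - y) * w y + opr (cK K) W' x := by
      intro x
      have e1 := (hO1 W x).2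
      have e2 := (hO1 (W - W') x).2
      rw [map_sub] at e2
      have e3 : ∑' y, UnitAddTorus.mFourierCoeff (cK K) (x - y) * (W - W') y =
          ∑ y ∈ L, hopK K (x - y) * w y := by
        rw [tsum_eq_sum (s := L)]
        · refine Finset.sum_congr rfl fun y hy => ?_
          rw [hopK_eq]
          congr 1
          change w y - (if y ∈ L then 0 else w y) = w y
          rw [if_pos hy, sub_zero]
        · intro y hy
          have : (W - W') y = w y - (if y ∈ L then 0 else w y) := rfl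
          rw [this, if_neg hy, sub_self, mul_zero]
      rw [e3] at e2
      have e4 : (opr (cK K) W - opr (cK K) W') x = opr (cK K) W x - opr (cK K) W' x := rfl
      rw [e4, e1] at e2
      have e5 : ∑' y, UnitAddTorus.mFourierCoeff (cK K) (x - y) * W y = ∑' y, hopK K (x - y) * w y := rfl
      rw [e5] at e2
      rw [← e2]
      ring
    have heq : Matrix.toEuclideanLin (mat K lam v L) u - z • u = δ - r := by
      ext x
      have e6 : (Matrix.toEuclideanLin (mat K lam v L) u - z • u) x =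
          ∑ y : L, mat K lam v L x y * w y - z * w x := rfl
      have e7 : (δ - r) x = δ x - opr (cK K) W' x := rfl
      rw [e6, e7]
      have e8 : ∑ y : L, mat K lam v L x y * w y =
          ∑ y ∈ L, hopK K ((x : Fin d → ℤ) - y) * w y + ((lam * v x : ℝ) : ℂ) * w x := by
        unfold mat
        simp_rw [add_mul]
        rw [Finset.sum_add_distrib]
        congr 1
        · exact Finset.sum_coe_sort L (fun y => hopK K ((x : Fin d → ℤ) - y) * w y)
        · rw [Finset.sum_eq_single x]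
          · rw [if_pos rfl]
          · intro b _ hb
            rw [if_neg (fun h => hb h.symm), zero_mul]
          · intro h
            exact absurd (Finset.mem_univ _) h
      have e9 := hw2 x
      rw [hsplit] at e9
      have e10 : δ x = if (x : Fin d → ℤ) = 0 then 1 else 0 := by
        rw [hδ, PiLp.single_apply]
        by_cases hx : x = o
        · rw [if_pos hx, if_pos (by rw [hx, ho])]
        · rw [if_neg hx, if_neg (fun h => hx (Subtype.ext h))]
      rw [e8, e10, ← e9]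
      ring
    have hfin := h3 z hz u r heq
    have hin : inner ℂ δ u = w 0 := by
      rw [hδ, EuclideanSpace.inner_single_left]
      simp [hu, ho]
    rw [hin] at hfin
    refine hfin.trans ?_
    apply div_le_div_of_nonneg_right _ hz.le
    have hrn : ‖r‖ ≤ ‖opr (cK K) W'‖ := by
      apply norm_le_of_sq _ _ (norm_nonneg _)
      refine le_trans (le_of_eq ?_) (sum_sq_l2 (opr (cK K) W') L)
      exact Finset.sum_coe_sort L (fun y => ‖opr (cK K) W' y‖ ^ 2)
    refine hrn.trans ((ContinuousLinearMap.le_opNorm _ _).trans ?_)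
    have hWn : ‖W'‖ = √(∑' y, ‖(if y ∈ L then 0 else w y : ℂ)‖ ^ 2) := by
      rw [← Real.sqrt_sq (norm_nonneg W'), norm_sq_l2]
    rw [hWn]
    exact mul_le_mul_of_nonneg_right (hO2.trans hKn) (Real.sqrt_nonneg _)

theorem tail_tendsto (w : (Fin d → ℤ) → ℂ) :
    Tendsto (fun L : Finset (Fin d → ℤ) =>
      √(∑' y, ‖(if y ∈ insert 0 L then 0 else w y : ℂ)‖ ^ 2)) atTop (𝓝 0) := by
  have h1 : Tendsto (fun L : Finset (Fin d → ℤ) => ∑' y : {y // y ∉ L}, ‖w y‖ ^ 2) atTop (𝓝 0) :=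
    tendsto_tsum_compl_atTop_zero (fun y => ‖w y‖ ^ 2)
  have h2 : Tendsto (fun L : Finset (Fin d → ℤ) => insert 0 L) atTop atTop := by
    apply tendsto_atTop_mono (f := fun L => L)
    · intro L
      exact Finset.subset_insert _ _
    · exact tendsto_id
  have h3 := h1.comp h2
  have h4 := (Real.continuous_sqrt.tendsto 0).comp h3
  rw [Real.sqrt_zero] at h4
  refine h4.congr fun L => ?_
  simp only [Function.comp_apply]
  congr 1
  have h5 : ∀ y : Fin d → ℤ, ‖(if y ∈ insert 0 L then 0 else w y : ℂ)‖ ^ 2 =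
      Set.indicator {y | y ∉ insert 0 L} (fun y => ‖w y‖ ^ 2) y := by
    intro y
    by_cases hy : y ∈ insert 0 L
    · have hn : y ∉ {y : Fin d → ℤ | y ∉ insert 0 L} := fun h => absurd hy h
      rw [if_pos hy, Set.indicator_of_notMem hn]
      simp
    · rw [if_neg hy, Set.indicator_of_mem hy]
  simp_rw [h5]
  exact tsum_subtype {y | y ∉ insert 0 L} (fun y => ‖w y‖ ^ 2)

theorem main : S_OPR → S_REP := by
  intro hO d K lam v G hG
  have hfv : ∀ L : Finset (Fin d → ℤ), ∃ (n : ℕ) (p e : Fin n → ℝ), (∀ k, 0 ≤ p k) ∧ ∑ k, p k = 1 ∧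
      ∑ k, p k * |e k| ≤ ‖K‖ + |lam * v 0| ∧
      ∀ z : ℂ, 0 < z.im → ∀ w, Sol (hopK K) lam v z 0 w →
        ‖w 0 - F p e z‖ ≤ ‖K‖ * √(∑' y, ‖(if y ∈ insert 0 L then 0 else w y : ℂ)‖ ^ 2) / z.im :=
    fun L => finite_volume hO K lam v (insert 0 L) (Finset.mem_insert_self _ _)
  choose n p e hp h1 hA hw using hfv
  have hlim : ∀ z : ℂ, 0 < z.im → Tendsto (fun L => F (p L) (e L) z) atTop (𝓝 (G z)) := by
    intro z hz
    obtain ⟨w, hsol, hw0⟩ := hG z hz
    rw [tendsto_iff_norm_sub_tendsto_zero]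
    have h5 : Tendsto (fun L : Finset (Fin d → ℤ) =>
        ‖K‖ * √(∑' y, ‖(if y ∈ insert 0 L then 0 else w y : ℂ)‖ ^ 2) / z.im) atTop (𝓝 0) := by
      have := ((tail_tendsto w).const_mul ‖K‖).div_const z.im
      simpa using this
    refine squeeze_zero (fun _ => norm_nonneg _) (fun L => ?_) h5
    rw [norm_sub_rev, ← hw0]
    exact hw L z hz w hsol
  have := limit_rep atTop (fun L => Fin (n L)) p e hp h1 (‖K‖ + |lam * v 0|) hA G hlim
  obtain ⟨a1, a2, a3⟩ := this
  refine ⟨a1, a2, fun η hη hη1 => ?_⟩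
  obtain ⟨b1, b2, b3, b4⟩ := a3 η hη hη1
  refine ⟨b1, b2, b3, fun B hB => (b4 B hB).trans_eq ?_⟩
  rw [add_assoc]

end

end Pool.Agent.W883.LL
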