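import Mathlib

set_option autoImplicit false

/-! One pole: the Poisson kernel and the Cauchy transform. -/

namespace Pool.Agent.W883.LL

open MeasureTheory Filter Topology Complex

noncomputable section

/-- the Poisson kernel -/
def P (e η E : ℝ) : ℝ := η / ((E - e) ^ 2 + η ^ 2)

theorem P_eq (e η E : ℝ) (hη : 0 < η) : P e η E = Real.pi * ProbabilityTheory.cauchyPDFReal e η.toNNReal E := by
  rw [ProbabilityTheory.cauchyPDFReal_def, Real.coe_toNNReal _ hη.le]
  unfold P
  have := Real.pi_pos.ne'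
  field_simp

theorem P_nonneg (e η E : ℝ) (hη : 0 < η) : 0 ≤ P e η E := by
  unfold P
  positivity

theorem P_le (e η E : ℝ) (hη : 0 < η) : P e η E ≤ 1 / η := by
  unfold P
  rw [div_le_div_iff₀ (by positivity) hη]
  nlinarith [sq_nonneg (E - e)]

theorem P_integrable (e η : ℝ) (hη : 0 < η) : Integrable (fun E => P e η E) := by
  have : (fun E => P e η E) = fun E => Real.pi * ProbabilityTheory.cauchyPDFReal e η.toNNReal E := by
    ext E
    exact P_eq e η E hη
  rw [this]
  exact (ProbabilityTheory.integrable_cauchyPDFReal e).const_mul _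

theorem P_integral (e η : ℝ) (hη : 0 < η) : ∫ E, P e η E = Real.pi := by
  have : (fun E => P e η E) = fun E => Real.pi * ProbabilityTheory.cauchyPDFReal e η.toNNReal E := by
    ext E
    exact P_eq e η E hη
  rw [this, integral_const_mul, ProbabilityTheory.integral_cauchyPDFReal_eq_one e
    (by simpa using hη), mul_one]

theorem P_cont (e η : ℝ) (hη : 0 < η) : Continuous (fun E => P e η E) := by
  unfold P
  apply Continuous.div continuous_const (by fun_prop)
  intro E
  positivity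

theorem sub_ne (z : ℂ) (hz : 0 < z.im) (E : ℝ) : (E : ℂ) - z ≠ 0 := by
  intro h
  have := congrArg Complex.im h
  simp at this
  exact hz.ne' this

theorem norm_sub_ge (z : ℂ) (hz : 0 < z.im) (E : ℝ) : z.im ≤ ‖(E : ℂ) - z‖ := by
  have h := Complex.abs_im_le_norm ((E : ℂ) - z)
  simp at h
  exact (le_abs_self _).trans h

theorem normSq_inv (z : ℂ) (_hz : 0 < z.im) (E : ℝ) : ‖((E : ℂ) - z)⁻¹‖ ^ 2 = P z.re z.im E / z.im := by
  rw [norm_inv, inv_pow, Complex.sq_norm, Complex.normSq_apply]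
  simp only [sub_re, ofReal_re, sub_im, ofReal_im, zero_sub]
  unfold P
  field_simp

theorem inv_cont (z : ℂ) (hz : 0 < z.im) : Continuous fun E : ℝ => ((E : ℂ) - z)⁻¹ := by
  apply Continuous.inv₀ (by fun_prop)
  exact sub_ne z hz

theorem prod_integrable (z a : ℂ) (hz : 0 < z.im) (ha : 0 < a.im) :
    Integrable fun E : ℝ => ((E : ℂ) - z)⁻¹ * ((E : ℂ) - a)⁻¹ := by
  have h : Integrable fun E : ℝ => P z.re z.im E / z.im + P a.re a.im E / a.im :=
    ((P_integrable _ _ hz).div_const _).add ((P_integrable _ _ ha).div_const _)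
  refine h.mono' ((inv_cont z hz).mul (inv_cont a ha)).aestronglyMeasurable ?_
  filter_upwards with E
  rw [norm_mul, ← normSq_inv z hz, ← normSq_inv a ha]
  nlinarith [sq_nonneg (‖((E : ℂ) - z)⁻¹‖ - ‖((E : ℂ) - a)⁻¹‖), sq_nonneg (‖((E : ℂ) - z)⁻¹‖),
    sq_nonneg ‖((E : ℂ) - a)⁻¹‖]

theorem inv_tendsto (a : ℂ) (l : Filter ℝ) (hl : Tendsto (fun E : ℝ => |E|) l atTop) :
    Tendsto (fun E : ℝ => ((E : ℂ) - a)⁻¹) l (𝓝 0) := by
  rw [tendsto_zero_iff_norm_tendsto_zero]
  simp only [norm_inv]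
  apply Tendsto.inv_tendsto_atTop
  have h1 : Tendsto (fun E : ℝ => |E| + (-‖a‖)) l atTop := tendsto_atTop_add_const_right _ _ hl
  refine tendsto_atTop_mono (fun E => ?_) h1
  have := norm_sub_norm_le (E : ℂ) a
  rw [Complex.norm_real, Real.norm_eq_abs] at this
  linarith

theorem prod_integral (z a : ℂ) (hz : 0 < z.im) (ha : 0 < a.im) :
    ∫ E : ℝ, ((E : ℂ) - z)⁻¹ * ((E : ℂ) - a)⁻¹ = 0 := by
  have hbot : Tendsto (fun E : ℝ => |E|) atBot atTop := tendsto_abs_atBot_atTop
  have htop : Tendsto (fun E : ℝ => |E|) atTop atTop := tendsto_abs_atTop_atTop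
  by_cases hza : z = a
  · subst hza
    have hd : ∀ E : ℝ, HasDerivAt (fun E : ℝ => -((E : ℂ) - z)⁻¹) (((E : ℂ) - z)⁻¹ * ((E : ℂ) - z)⁻¹) E := by
      intro E
      have h1 : HasDerivAt (fun E : ℝ => (E : ℂ) - z) 1 E := by
        simpa using (Complex.ofRealCLM.hasDerivAt (x := E)).sub_const z
      have h2 : HasDerivAt (fun E : ℝ => -((E : ℂ) - z)⁻¹) (-(-1 / ((E : ℂ) - z) ^ 2)) E :=
        (h1.inv (sub_ne z hz E)).neg
      have h3 := sub_ne z hz E
      have h4 : -(-1 / ((E : ℂ) - z) ^ 2) = ((E : ℂ) - z)⁻¹ * ((E : ℂ) - z)⁻¹ := by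
        field_simp
      rw [← h4]
      exact h2
    have := integral_of_hasDerivAt_of_tendsto hd (prod_integrable z z hz hz)
      (m := 0) (n := 0) (by simpa using (inv_tendsto z _ hbot).neg)
      (by simpa using (inv_tendsto z _ htop).neg)
    rw [this, sub_zero]
  · have hd : ∀ E : ℝ, HasDerivAt (fun E : ℝ => Complex.log (((E : ℂ) - z) * ((E : ℂ) - a)⁻¹))
        ((z - a) * (((E : ℂ) - z)⁻¹ * ((E : ℂ) - a)⁻¹)) E := by
      intro E
      have h1 : HasDerivAt (fun E : ℝ => (E : ℂ) - z) 1 E := by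
        simpa using (Complex.ofRealCLM.hasDerivAt (x := E)).sub_const z
      have h2 : HasDerivAt (fun E : ℝ => (E : ℂ) - a) 1 E := by
        simpa using (Complex.ofRealCLM.hasDerivAt (x := E)).sub_const a
      have h3 : HasDerivAt (fun E : ℝ => ((E : ℂ) - z) * ((E : ℂ) - a)⁻¹)
          (1 * ((E : ℂ) - a)⁻¹ + ((E : ℂ) - z) * (-1 / ((E : ℂ) - a) ^ 2)) E :=
        h1.mul (h2.inv (sub_ne a ha E))
      have hs : ((E : ℂ) - z) * ((E : ℂ) - a)⁻¹ ∈ Complex.slitPlane := by
        rw [Complex.mem_slitPlane_iff_not_le_zero]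
        intro hle
        have hr : ∃ r : ℝ, 0 ≤ r ∧ ((E : ℂ) - z) * ((E : ℂ) - a)⁻¹ = ((-r : ℝ) : ℂ) := by
          refine ⟨-(((E : ℂ) - z) * ((E : ℂ) - a)⁻¹).re, ?_, ?_⟩
          · have := (Complex.le_def.1 hle).1
            simp only [zero_re] at this
            linarith
          · apply Complex.ext
            · simp only [neg_neg, ofReal_re]
            · rw [ofReal_im]
              have := (Complex.le_def.1 hle).2
              simpa using this
        obtain ⟨r, hr0, hr1⟩ := hr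
        have h5 : (E : ℂ) - z = ((-r : ℝ) : ℂ) * ((E : ℂ) - a) := by
          rw [← hr1, mul_assoc, inv_mul_cancel₀ (sub_ne a ha E), mul_one]
        have h6 := congrArg Complex.im h5
        rw [Complex.im_ofReal_mul] at h6
        simp at h6
        nlinarith
      have h4 := h3.clog_real hs
      convert h4 using 1
      have := sub_ne z hz E
      have := sub_ne a ha E
      field_simp
      ring
    have hlim : ∀ l : Filter ℝ, Tendsto (fun E : ℝ => |E|) l atTop →
        Tendsto (fun E : ℝ => Complex.log (((E : ℂ) - z) * ((E : ℂ) - a)⁻¹)) l (𝓝 0) := by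
      intro l hl
      have h1 : ∀ E : ℝ, ((E : ℂ) - z) * ((E : ℂ) - a)⁻¹ = 1 + (a - z) * ((E : ℂ) - a)⁻¹ := by
        intro E
        have := sub_ne a ha E
        field_simp
        ring
      simp_rw [h1]
      have h2 : Tendsto (fun E : ℝ => 1 + (a - z) * ((E : ℂ) - a)⁻¹) l (𝓝 1) := by
        simpa using ((inv_tendsto a l hl).const_mul (a - z)).const_add 1
      have h3 := h2.clog (by simp)
      simpa using h3
    have := integral_of_hasDerivAt_of_tendsto hd ((prod_integrable z a hz ha).const_mul _)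
      (hlim _ hbot) (hlim _ htop)
    rw [integral_const_mul, sub_zero] at this
    rcases mul_eq_zero.1 this with h | h
    · exact absurd (sub_eq_zero.1 h) hza
    · exact h

/-- Cauchy transform of the Poisson kernel -/
theorem P_cauchy (e η : ℝ) (hη : 0 < η) (z : ℂ) (hz : 0 < z.im) :
    Integrable (fun E : ℝ => (P e η E : ℂ) / ((E : ℂ) - z)) ∧
    ∫ E : ℝ, (P e η E : ℂ) / ((E : ℂ) - z) = Real.pi / ((e : ℂ) - (z + η * I)) := by
  set a : ℂ := e + η * I with ha
  have haim : 0 < a.im := by simp [ha, hη]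
  have hb : (e : ℂ) - (z + η * I) ≠ 0 := by
    intro h
    have := congrArg Complex.im h
    simp at this
    linarith
  have h1 : ∀ E : ℝ, (P e η E : ℂ) / ((E : ℂ) - z) = (P e η E : ℂ) * ((e : ℂ) - (z + η * I))⁻¹ -
      (η * ((e : ℂ) - (z + η * I))⁻¹) * (((E : ℂ) - z)⁻¹ * ((E : ℂ) - a)⁻¹) := by
    intro E
    have h2 := sub_ne z hz E
    have h3 := sub_ne a haim E
    have h4 : ((E : ℂ) - e) ^ 2 + η ^ 2 = ((E : ℂ) - a) * ((E : ℂ) - e + η * I) := by
      rw [ha]
      ring_nf
      simp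
    have h5 : (((E : ℂ) - e) ^ 2 + η ^ 2) ≠ 0 := by
      have : 0 < (E - e) ^ 2 + η ^ 2 := by positivity
      exact_mod_cast this.ne'
    have h6 : (E : ℂ) - e + η * I ≠ 0 := by
      intro h
      rw [h4, h, mul_zero] at h5
      exact h5 rfl
    unfold P
    push_cast
    rw [h4]
    field_simp
    ring
  have i1 : Integrable (fun E : ℝ => (P e η E : ℂ) * ((e : ℂ) - (z + η * I))⁻¹) :=
    (P_integrable e η hη).ofReal.mul_const _
  have i2 := (prod_integrable z a hz haim).const_mul (η * ((e : ℂ) - (z + η * I))⁻¹)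
  simp_rw [h1]
  refine ⟨i1.sub i2, ?_⟩
  rw [integral_sub i1 i2, integral_const_mul, prod_integral z a hz haim, mul_zero, sub_zero,
    integral_mul_const, integral_complex_ofReal, P_integral e η hη, div_eq_mul_inv]

/-- tail of the Poisson kernel -/
theorem P_tail (e η : ℝ) (hη : 0 < η) (hη1 : η ≤ 1) (B : ℝ) (hB : 1 ≤ B) :
    ∫ E in {E : ℝ | B ≤ |E|}, P e η E ≤ 2 * Real.pi * (1 + |e|) / B := by
  have hB0 : 0 < B := by linarith
  have hz : 0 < ((B : ℂ) * I).im := by simp [hB0]
  obtain ⟨i1, h1⟩ := P_cauchy e η hη _ hz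
  have h2 : ∀ E : ℝ, ((P e η E : ℂ) / ((E : ℂ) - (B : ℂ) * I)).im = P e η E * (B / (E ^ 2 + B ^ 2)) := by
    intro E
    rw [div_eq_mul_inv, im_ofReal_mul, inv_im, Complex.normSq_apply]
    simp
    left
    ring_nf
  have h3 : ∫ E : ℝ, P e η E * (B / (E ^ 2 + B ^ 2)) = Real.pi * ((B + η) / (e ^ 2 + (B + η) ^ 2)) := by
    have h4 := congrArg Complex.im h1
    have h5 : (∫ E : ℝ, (P e η E : ℂ) / ((E : ℂ) - (B : ℂ) * I)).im =
        ∫ E : ℝ, ((P e η E : ℂ) / ((E : ℂ) - (B : ℂ) * I)).im :=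
      (integral_im i1).symm
    rw [h5] at h4
    simp_rw [h2] at h4
    rw [h4, div_eq_mul_inv, im_ofReal_mul, inv_im, Complex.normSq_apply]
    simp
    congr 1
    ring
  have i2 : Integrable fun E : ℝ => P e η E * (B / (E ^ 2 + B ^ 2)) := by
    have := i1.im
    refine this.congr ?_
    filter_upwards with E
    exact h2 E
  have i3 : Integrable fun E : ℝ => 2 * (P e η E - B * (P e η E * (B / (E ^ 2 + B ^ 2)))) :=
    ((P_integrable e η hη).sub (i2.const_mul B)).const_mul 2
  have h6 : ∫ E in {E : ℝ | B ≤ |E|}, P e η E ≤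
      ∫ E : ℝ, 2 * (P e η E - B * (P e η E * (B / (E ^ 2 + B ^ 2)))) := by
    have hm : MeasurableSet {E : ℝ | B ≤ |E|} := (isClosed_le continuous_const continuous_abs).measurableSet
    rw [← integral_indicator hm]
    apply integral_mono ((P_integrable e η hη).indicator hm) i3
    intro E
    have hP := P_nonneg e η E hη
    have h7 : 2 * (P e η E - B * (P e η E * (B / (E ^ 2 + B ^ 2)))) =
        P e η E * (2 * (E ^ 2 / (E ^ 2 + B ^ 2))) := by
      field_simp
      ring
    by_cases hE : E ∈ {E : ℝ | B ≤ |E|}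
    · rw [Set.indicator_of_mem hE]
      simp only
      rw [h7]
      have h8 : B ^ 2 ≤ E ^ 2 := by
        rw [← sq_abs E]
        exact pow_le_pow_left₀ hB0.le hE 2
      have h9 : 1 ≤ 2 * (E ^ 2 / (E ^ 2 + B ^ 2)) := by
        rw [← mul_div_assoc, le_div_iff₀ (by positivity)]
        linarith
      nlinarith
    · rw [Set.indicator_of_notMem hE]
      simp only
      rw [h7]
      positivity
  refine h6.trans ?_
  rw [integral_const_mul, integral_sub (P_integrable e η hη) (i2.const_mul B), integral_const_mul,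
    h3, P_integral e η hη]
  have hpi := Real.pi_pos
  have h10 : 1 - B * ((B + η) / (e ^ 2 + (B + η) ^ 2)) ≤ (1 + |e|) / B := by
    have hy : 0 < B + η := by linarith
    have hpos : 0 < e ^ 2 + (B + η) ^ 2 := by positivity
    rw [← mul_div_assoc, ← sub_nonneg]
    have : (1 + |e|) / B - (1 - B * (B + η) / (e ^ 2 + (B + η) ^ 2)) =
        ((1 + |e|) * (e ^ 2 + (B + η) ^ 2) - B * (e ^ 2 + (B + η) ^ 2 - B * (B + η))) /
          (B * (e ^ 2 + (B + η) ^ 2)) := by
      field_simp
    rw [this]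
    apply div_nonneg _ (by positivity)
    have he : e ^ 2 = |e| ^ 2 := (sq_abs e).symm
    have he0 : 0 ≤ |e| := abs_nonneg e
    rw [he]
    have h11 : B * (|e| ^ 2 + (B + η) ^ 2 - B * (B + η)) = B * |e| ^ 2 + B * (η * (B + η)) := by ring
    rw [h11]
    have h12 : B * |e| ^ 2 ≤ |e| * (|e| ^ 2 + (B + η) ^ 2) := by
      have : |e| * (B * |e|) ≤ |e| * (|e| ^ 2 + (B + η) ^ 2) := by
        apply mul_le_mul_of_nonneg_left _ he0
        nlinarith [sq_nonneg (|e| - (B + η)), mul_nonneg he0 hη.le, mul_nonneg he0 hB0.le]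
      calc B * |e| ^ 2 = |e| * (B * |e|) := by ring
        _ ≤ _ := this
    have h13 : B * (η * (B + η)) ≤ 1 * (|e| ^ 2 + (B + η) ^ 2) := by
      nlinarith [mul_nonneg hB0.le hy.le, mul_nonneg hη.le hy.le, sq_nonneg |e|]
    nlinarith
  calc 2 * (Real.pi - B * (Real.pi * ((B + η) / (e ^ 2 + (B + η) ^ 2))))
      = 2 * Real.pi * (1 - B * ((B + η) / (e ^ 2 + (B + η) ^ 2))) := by ring
    _ ≤ 2 * Real.pi * ((1 + |e|) / B) := by
        apply mul_le_mul_of_nonneg_left h10 (by positivity)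
    _ = 2 * Real.pi * (1 + |e|) / B := by ring

end

end Pool.Agent.W883.LL
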